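import Pool.Agent.H60.TranspLex

set_option autoImplicit false

namespace Pool.Agent.Results.MP_5ffd91_co.FactorialMultiples

/-- For every `n` and every `k ≥ 1`, `c ≤ k + 1`: among all sets of `c * k!` permutations of `n`
elements, and among all sets of `n! - c * k!` permutations, the initial segment of the
lexicographic order has the smallest edge boundary in the transposition graph. -/
theorem result :
    ∀ (n k c : ℕ) (A : Finset (Equiv.Perm (Fin n))), 1 ≤ k → c ≤ k + 1 →
      (A.card = c * k.factorial ∨ A.card + c * k.factorial = n.factorial) →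
      ((Finset.univ : Finset (Equiv.Perm (Fin n) × Fin n × Fin n)).filter
        (fun p => p.2.1 < p.2.2 ∧
          p.1 ∈ (Finset.univ.filter (fun σ : Equiv.Perm (Fin n) =>
            (Finset.univ.filter (fun π : Equiv.Perm (Fin n) =>
              ∃ j : Fin n, (∀ i : Fin n, i < j → π i = σ i) ∧ π j < σ j)).card < A.card)) ∧
          p.1 * Equiv.swap p.2.1 p.2.2 ∉ (Finset.univ.filter (fun σ : Equiv.Perm (Fin n) =>
            (Finset.univ.filter (fun π : Equiv.Perm (Fin n) =>
              ∃ j : Fin n, (∀ i : Fin n, i < j → π i = σ i) ∧ π j < σ j)).card < A.card)))).card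
      ≤ ((Finset.univ : Finset (Equiv.Perm (Fin n) × Fin n × Fin n)).filter
        (fun p => p.2.1 < p.2.2 ∧ p.1 ∈ A ∧ p.1 * Equiv.swap p.2.1 p.2.2 ∉ A)).card := by
  intro n k c A hk hc h
  rcases h with h | h
  · exact Pool.H60.Transp.bd_lex_le hk hc A h
  · exact Pool.H60.Transp.bd_lex_le' hk hc A h

end Pool.Agent.Results.MP_5ffd91_co.FactorialMultiples
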