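import Pool.Agent.H60.TranspLex
import Pool.Agent.H98.TA.FacS

set_option autoImplicit false

namespace Pool.Agent.Results.MP_5ffd91_co.GeneralBound

/-- For every set `A` of permutations of `n` elements: (1) for every `k ≥ 1` the edge boundary of
`A` in the transposition graph is at least
`|A| * ((n choose 2) - (k choose 2) + 1 - |A| / k!)`, written without subtraction or division;
(2) for every `s`, if `|A| ≤ (n-s)!`, then it is at least `(11 s + 11) / (11 s + 13)` times the edge
boundary of the initial segment of size `|A|` of the lexicographic order. -/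
theorem result :
    ∀ (n : ℕ) (A : Finset (Equiv.Perm (Fin n))),
      (∀ k : ℕ, 1 ≤ k →
        k.factorial * (n.choose 2) * A.card + k.factorial * A.card
        ≤ k.factorial * ((Finset.univ : Finset (Equiv.Perm (Fin n) × Fin n × Fin n)).filter
            (fun p => p.2.1 < p.2.2 ∧ p.1 ∈ A ∧ p.1 * Equiv.swap p.2.1 p.2.2 ∉ A)).card
          + A.card ^ 2 + k.factorial * (k.choose 2) * A.card) ∧
      (∀ s : ℕ, A.card ≤ (n - s).factorial →
        11 * (s + 1) * ((Finset.univ : Finset (Equiv.Perm (Fin n) × Fin n × Fin n)).filter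
          (fun p => p.2.1 < p.2.2 ∧
            p.1 ∈ (Finset.univ.filter (fun σ : Equiv.Perm (Fin n) =>
              (Finset.univ.filter (fun π : Equiv.Perm (Fin n) =>
                ∃ j : Fin n, (∀ i : Fin n, i < j → π i = σ i) ∧ π j < σ j)).card < A.card)) ∧
            p.1 * Equiv.swap p.2.1 p.2.2 ∉ (Finset.univ.filter (fun σ : Equiv.Perm (Fin n) =>
              (Finset.univ.filter (fun π : Equiv.Perm (Fin n) =>
                ∃ j : Fin n, (∀ i : Fin n, i < j → π i = σ i) ∧ π j < σ j)).card
                  < A.card)))).card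
        ≤ (11 * s + 13) * ((Finset.univ : Finset (Equiv.Perm (Fin n) × Fin n × Fin n)).filter
          (fun p => p.2.1 < p.2.2 ∧ p.1 ∈ A ∧ p.1 * Equiv.swap p.2.1 p.2.2 ∉ A)).card) := by
  intro n A
  refine ⟨?_, fun s hs => Pool.H98.TA.factor_s s A hs⟩
  intro k hk
  have h1 := Pool.H60.Transp.P_nat k hk A
  have h2 := Pool.H60.Transp.bd_add_D A
  rw [Pool.H60.Transp.card_pairs] at h2
  have h3 : k.factorial * (n.choose 2) * A.card
      = k.factorial * Pool.H60.Transp.bd A + k.factorial * Pool.H60.Transp.D A := by
    rw [← mul_add, h2]; ring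
  rw [h3]
  unfold Pool.H60.Transp.bd at *
  omega

end Pool.Agent.Results.MP_5ffd91_co.GeneralBound
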