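import Pool.Agent.H60.NN.Fin

set_option autoImplicit false

namespace Pool.Agent.Results.MP_5ffd91_co.SparseExpansions

open Pool.H60.Transp Pool.H60.NN

/-- `bd A` is the number of edges of the transposition graph which leave `A`, and `lexInit n m`
the initial segment of size `m` of the lexicographic order of the permutations of `n` elements.
Let `1 ≤ c ≤ k` (or `c = 0`, if `d ≤ 24`), `1 ≤ d`, and let `|A|` or `n! - |A|` be `c * k! + d` or
(`1 ≤ c`) `c * k! - d`.
(1) If `d` is admissible at level `k` (`Adm k d`), then the initial segment of size `|A|` has at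
most as many boundary edges as `A`.
(2) If `d ≤ (j + 1)!` with `2 ≤ j` and `j + 8 + (j + 3) / 4 ≤ k`, then there is a set `B` of `d`
permutations (of `N` elements, for some `N`) which beats the initial segment of size `d` by at
least as much as `A` beats the initial segment of size `|A|`. -/
theorem result (n k c d m : ℕ) (A : Finset (Equiv.Perm (Fin n))) (hc : c ≤ k) (_hd : 1 ≤ d)
    (_h0 : 1 ≤ c ∨ d ≤ 24)
    (hm : m = c * k.factorial + d ∨ (1 ≤ c ∧ m = c * k.factorial - d))
    (hA : A.card = m ∨ n.factorial - A.card = m) :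
    (Adm k d → bd (lexInit n A.card) ≤ bd A) ∧
    (∀ j : ℕ, 2 ≤ j → j + 8 + (j + 3) / 4 ≤ k → d ≤ (j + 1).factorial →
      ∃ (N : ℕ) (B : Finset (Equiv.Perm (Fin N))), B.card = d ∧
        bd (lexInit n A.card) + bd B ≤ bd A + bd (lexInit N d)) :=
  ⟨fun hd => bd_adm hd hc hm A hA, fun _ hj hk hd => reduction hj hk hc hd A hm hA⟩

end Pool.Agent.Results.MP_5ffd91_co.SparseExpansions
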