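import Pool.Agent.H60.TA.Fin
import Pool.Agent.H19.TA.Apx2
import Pool.Agent.H98.TA.AllSizes
import Pool.Agent.H98.TA.Fac100
import Pool.Agent.H98.BE.Design

set_option autoImplicit false

namespace Pool.Agent.Results.MP_5ffd91_co.TopScale

open Pool.H60.Transp in
/-- `b X` is the number of edges of the transposition graph of the permutations of `n` elements
which leave `X`, and `L m` is the initial segment of size `m` of the lexicographic order.
Let `n ≥ 100`, or `n` prime, or `n = 2 p - 1` with `p` prime, or let there be `n`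
permutations of `n` elements such that the quotient of any two different ones is an `n`-cycle.
(i) If `(n-2)!` divides `|A|`, then `b (L |A|) ≤ b A`.
(ii) For `n ≥ 3`, every set `A` of permutations and every `c`, the boundary is at least
`|A| (2 (n-1) + 2 c (n-2)) - |A|^2 / (n-2)! - (n-2) c (c+1) (n-1)!`, written without subtraction or
division.
For `n ≥ 100` and sets `A` of every size: (iii) `b (L |A|) ≤ b A + (n-2) (n-2)! / 4`,
(iv) `b (L |A|) ≤ (12/11) b A`, and (v) `(1 - 1/(4n)) b (L |A|) ≤ b A` if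
`(n-1)! ≤ |A| ≤ n! - (n-1)!`. -/
theorem result :
    ∀ (n : ℕ) (b : Finset (Equiv.Perm (Fin n)) → ℕ) (L : ℕ → Finset (Equiv.Perm (Fin n))),
      (∀ X, b X = ((Finset.univ : Finset (Equiv.Perm (Fin n) × Fin n × Fin n)).filter
        (fun p => p.2.1 < p.2.2 ∧ p.1 ∈ X ∧ p.1 * Equiv.swap p.2.1 p.2.2 ∉ X)).card) →
      (∀ m, L m = Finset.univ.filter (fun σ : Equiv.Perm (Fin n) =>
        (Finset.univ.filter (fun π : Equiv.Perm (Fin n) =>
          ∃ j : Fin n, (∀ i : Fin n, i < j → π i = σ i) ∧ π j < σ j)).card < m)) →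
      ((100 ≤ n ∨ n.Prime ∨ (∃ p : ℕ, p.Prime ∧ n = 2 * p - 1) ∨
          (∃ D : Finset (Equiv.Perm (Fin n)), D.card = n ∧
            ∀ a ∈ D, ∀ b ∈ D, a ≠ b → (a⁻¹ * b).IsCycle ∧ (a⁻¹ * b).support = Finset.univ)) →
        (∀ A : Finset (Equiv.Perm (Fin n)), (n - 2).factorial ∣ A.card → b (L A.card) ≤ b A) ∧
        (3 ≤ n → ∀ (A : Finset (Equiv.Perm (Fin n))) (c : ℕ),
          (n - 2).factorial * (A.card * (2 * (n - 1) + 2 * c * (n - 2)))
          ≤ (n - 2).factorial * b A + A.card ^ 2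
            + (n - 2) * (c * (c + 1)) * ((n - 2).factorial * (n - 1).factorial))) ∧
      (100 ≤ n → ∀ A : Finset (Equiv.Perm (Fin n)),
        4 * b (L A.card) ≤ 4 * b A + (n - 2) * (n - 2).factorial ∧
        11 * b (L A.card) ≤ 12 * b A ∧
        ((n - 1).factorial ≤ A.card → A.card + (n - 1).factorial ≤ n.factorial →
          4 * n * b (L A.card) ≤ 4 * n * b A + b (L A.card))) := by
  intro n b L hb hL
  have hb' : ∀ X : Finset (Equiv.Perm (Fin n)), b X = bd X := hb
  have hL' : ∀ m, L m = lexInit n m := hL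
  simp only [hb', hL']
  refine ⟨?_, ?_⟩
  swap
  · intro hn A
    obtain ⟨R, hR⟩ := Pool.H60.TA.exists_good_all hn
    have h3 := Pool.H98.TA.bd_lex_le_add (by omega) R hR A
    refine ⟨h3, Pool.H98.TA.factor' hn A, fun h1 h2 => ?_⟩
    have h4 := Pool.H19.TA.bd_rel_of (by omega) A h3 h1 h2
    obtain ⟨k, hk⟩ : ∃ k, 4 * n = k + 1 := ⟨4 * n - 1, by omega⟩
    rw [hk] at h4 ⊢
    rw [Nat.add_sub_cancel] at h4
    calc (k + 1) * bd (lexInit n A.card)
        = k * bd (lexInit n A.card) + bd (lexInit n A.card) := by ring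
      _ ≤ (k + 1) * bd A + bd (lexInit n A.card) := Nat.add_le_add_right h4 _
  intro hn
  have key : (∀ A : Finset (Equiv.Perm (Fin n)), (n - 2).factorial ∣ A.card →
        bd (lexInit n A.card) ≤ bd A) ∧
      (3 ≤ n → ∀ (A : Finset (Equiv.Perm (Fin n))) (c : ℕ),
        ((n - 2).factorial : ℝ) * D A
          + ((n : ℝ) - 2) * ((n - 2).factorial : ℝ)
            * (2 * c * A.card - c * (c + 1) * ((n - 1).factorial : ℝ))
          ≤ (A.card : ℝ) ^ 2
            + ((n - 2).factorial : ℝ) * (((n : ℝ) - 1) * ((n : ℝ) - 4) / 2) * A.card) := by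
    have row : (∃ D : Finset (Equiv.Perm (Fin n)), Pool.H98.BE.RowHam D) →
        (∀ A : Finset (Equiv.Perm (Fin n)), (n - 2).factorial ∣ A.card →
          bd (lexInit n A.card) ≤ bd A) ∧
        (3 ≤ n → ∀ (A : Finset (Equiv.Perm (Fin n))) (c : ℕ),
          ((n - 2).factorial : ℝ) * D A
            + ((n : ℝ) - 2) * ((n - 2).factorial : ℝ)
              * (2 * c * A.card - c * (c + 1) * ((n - 1).factorial : ℝ))
            ≤ (A.card : ℝ) ^ 2
              + ((n - 2).factorial : ℝ) * (((n : ℝ) - 1) * ((n : ℝ) - 4) / 2) * A.card) :=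
      fun hD => ⟨fun A hA => Pool.H98.BE.bd_lex_le_rowHam hD A hA,
        fun h3 A c => Pool.H98.BE.main_bound hD h3 A c⟩
    rcases hn with hn | hn | ⟨p, hp, rfl⟩ | ⟨D, h1, h2⟩
    · obtain ⟨R, hR⟩ := Pool.H60.TA.exists_good_all hn
      exact ⟨fun A hA => Pool.H60.TP.bd_lex_le_good (by omega) R hR A hA,
        fun h3 A c => Pool.H60.TP.main_bound_good h3 R hR A c⟩
    · exact row (Pool.H98.BE.exists_rowHam_prime hn)
    · refine row ?_
      rcases Nat.lt_or_ge p 3 with h | h
      · have hp2 : p = 2 := by have := hp.two_le; omega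
        subst hp2
        exact Pool.H98.BE.exists_rowHam_prime Nat.prime_three
      · exact Pool.H98.BE.exists_rowHam_two_mul_sub_one hp h
    · exact row ⟨D, by rw [h1, Fintype.card_fin], fun a ha b hb hab =>
        Pool.H98.BE.mem_cyc.2 (h2 a ha b hb hab)⟩
  refine ⟨key.1, ?_⟩
  intro hn3 A c
  have h1 := key.2 hn3 A c
  have h2 := bd_add_D A
  rw [card_pairs] at h2
  have h2' : (bd A : ℝ) + D A = (n : ℝ) * ((n : ℝ) - 1) / 2 * A.card := by
    rw [← Nat.cast_choose_two]; exact_mod_cast h2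
  obtain ⟨N, rfl⟩ : ∃ N, n = N + 2 := ⟨n - 2, by omega⟩
  have e1 : N + 2 - 2 = N := by omega
  have e2 : N + 2 - 1 = N + 1 := by omega
  rw [e1, e2] at h1 ⊢
  have goal : ((N.factorial * (A.card * (2 * (N + 1) + 2 * c * N)) : ℕ) : ℝ)
      ≤ ((N.factorial * bd A + A.card ^ 2
        + N * (c * (c + 1)) * (N.factorial * (N + 1).factorial) : ℕ) : ℝ) := by
    push_cast at h1 h2' ⊢
    have h3 : (D A : ℝ) = ((N : ℝ) + 2) * ((N : ℝ) + 2 - 1) / 2 * A.card - bd A := by linarith
    rw [h3] at h1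
    nlinarith [h1]
  exact_mod_cast goal

end Pool.Agent.Results.MP_5ffd91_co.TopScale
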